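import Mathlib

/-!
A Hadamard difference set in `Z/8 × Z/2` whose development does not embed as a set of maximal arcs
of degree 2 in any projective plane of order 4.
-/

namespace Pool.Agent.Results.MP_82bed6_co.Counter

/-- `M` is a Hadamard difference set of order `2^(2b-2)` in the (additively written) abelian
group `G`: it has `2^(2b-1) - 2^(b-1)` elements, and each `g ≠ 0` is `m - m'` with `m, m' ∈ M` in
exactly `2^(2b-2) - 2^(b-1)` ways. -/
def IsHadamardDS {G : Type} [AddCommGroup G] [DecidableEq G] (b : ℕ) (M : Finset G) : Prop :=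
  M.card = 2 ^ (2 * b - 1) - 2 ^ (b - 1) ∧
    ∀ g : G, g ≠ 0 →
      ((M ×ˢ M).filter (fun p => p.1 - p.2 = g)).card = 2 ^ (2 * b - 2) - 2 ^ (b - 1)

/-- A set `A` of points is a maximal arc of degree `d`: every line meets it in `0` or `d` points. -/
def IsMaximalArc {P : Type} (L : Type) [Membership P L] (d : ℕ) (A : Set P) : Prop :=
  ∀ l : L, {p | p ∈ A ∧ p ∈ l}.ncard = 0 ∨ {p | p ∈ A ∧ p ∈ l}.ncard = d

/-- The development of `M` embeds in the plane with points `P` and lines `L` as a set of maximal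
arcs of degree `d`: some injection of `G` into the points sends every translate `M + g` to a
maximal arc of degree `d`. -/
def EmbedsAsArcs {G : Type} [AddCommGroup G] (M : Finset G) (P L : Type) [Membership P L]
    (d : ℕ) : Prop :=
  ∃ φ : G → P, Function.Injective φ ∧
    ∀ g : G, IsMaximalArc L d (φ '' ((fun m => m + g) '' (M : Set G)))

abbrev G0 : Type := ZMod 8 × ZMod 2

def Ml : List G0 := [(0, 0), (0, 1), (1, 0), (2, 0), (5, 1), (6, 0)]

def idx (x : G0) : ℕ := 2 * x.1.val + x.2.val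

def unidx (i : Fin 16) : G0 := ((i.val / 2 : ℕ), (i.val % 2 : ℕ))

def blocks : List (List ℕ) :=
  [[0, 1, 2, 4, 11, 12], [1, 0, 3, 5, 10, 13], [2, 3, 4, 6, 13, 14], [3, 2, 5, 7, 12, 15],
   [4, 5, 6, 8, 15, 0], [5, 4, 7, 9, 14, 1], [6, 7, 8, 10, 1, 2], [7, 6, 9, 11, 0, 3],
   [8, 9, 10, 12, 3, 4], [9, 8, 11, 13, 2, 5], [10, 11, 12, 14, 5, 6], [11, 10, 13, 15, 4, 7],
   [12, 13, 14, 0, 7, 8], [13, 12, 15, 1, 6, 9], [14, 15, 0, 2, 9, 10], [15, 14, 1, 3, 8, 11]]

def ok (n : ℕ) : Bool :=
  blocks.all (fun B => (B.filter n.testBit).length == 0 || (B.filter n.testBit).length == 2)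

theorem key : (List.range 65536).all (fun n => !(n.testBit 0) || !(ok n) ||
    ((!(n.testBit 6) || (n.testBit 1 && !(n.testBit 7))) && (!(n.testBit 7) || n.testBit 1))) =
    true := by
  decide +kernel

theorem blocks_spec : ∀ B ∈ blocks, ∃ g : G0, Ml.map (fun m => idx (m + g)) = B := by
  decide +kernel

theorem idx_lt : ∀ x : G0, idx x < 16 := by decide +kernel

theorem unidx_idx : ∀ x : G0, unidx ⟨idx x, idx_lt x⟩ = x := by decide +kernel

theorem Ml_nodup : Ml.Nodup := by decide +kernel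

theorem line_lemma (f : G0 → Bool)
    (hf : ∀ g : G0, (Ml.filter (fun m => f (m + g))).length = 0 ∨
      (Ml.filter (fun m => f (m + g))).length = 2) (h0 : f (0, 0) = true) :
    (f (3, 0) = true → f (0, 1) = true ∧ f (3, 1) = false) ∧
      (f (3, 1) = true → f (0, 1) = true) := by
  set n : ℕ := Nat.ofBits (fun i : Fin 16 => f (unidx i)) with hn
  have hlt : n < 65536 := Nat.ofBits_lt_two_pow _
  have hb : ∀ x : G0, n.testBit (idx x) = f x := by
    intro x
    rw [hn, Nat.testBit_ofBits_lt _ _ (idx_lt x), unidx_idx]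
  have hok : ok n = true := by
    unfold ok
    rw [List.all_eq_true]
    intro B hB
    obtain ⟨g, rfl⟩ := blocks_spec B hB
    have hl : ((Ml.map (fun m => idx (m + g))).filter n.testBit).length =
        (Ml.filter (fun m => f (m + g))).length := by
      rw [List.filter_map, List.length_map]
      congr 2
      funext m
      exact hb (m + g)
    rw [hl]
    rcases hf g with h | h <;> simp [h]
  have hk := List.all_eq_true.mp key n (List.mem_range.mpr hlt)
  have e0 : n.testBit 0 = f (0, 0) := hb (0, 0)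
  have e1 : n.testBit 1 = f (0, 1) := hb (0, 1)
  have e6 : n.testBit 6 = f (3, 0) := hb (3, 0)
  have e7 : n.testBit 7 = f (3, 1) := hb (3, 1)
  rw [e0, e1, e6, e7, hok, h0] at hk
  revert hk
  cases f (0, 1) <;> cases f (3, 0) <;> cases f (3, 1) <;> simp

theorem count_eq {P L : Type} [Membership P L] (φ : G0 → P) (hφ : Function.Injective φ)
    (l : L) (g : G0) [∀ x : G0, Decidable (φ x ∈ l)] :
    {p | p ∈ φ '' ((fun m => m + g) '' (Ml.toFinset : Set G0)) ∧ p ∈ l}.ncard =
      (Ml.filter (fun m => decide (φ (m + g) ∈ l))).length := by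
  classical
  have hinj : Function.Injective (fun m : G0 => φ (m + g)) := fun a b h =>
    add_right_cancel (hφ h)
  have hs : {p | p ∈ φ '' ((fun m => m + g) '' (Ml.toFinset : Set G0)) ∧ p ∈ l} =
      (fun m : G0 => φ (m + g)) ''
        ((Ml.filter (fun m => decide (φ (m + g) ∈ l))).toFinset : Set G0) := by
    ext p
    simp only [Set.mem_ofPred_eq, Set.mem_image, Finset.mem_coe, List.mem_toFinset,
      List.mem_filter, decide_eq_true_eq]
    constructor
    · rintro ⟨⟨_, ⟨m, hm, rfl⟩, rfl⟩, hl⟩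
      exact ⟨m, ⟨hm, hl⟩, rfl⟩
    · rintro ⟨m, ⟨hm, hl⟩, rfl⟩
      exact ⟨⟨_, ⟨m, hm, rfl⟩, rfl⟩, hl⟩
  rw [hs, Set.ncard_image_of_injective _ hinj, Set.ncard_coe_finset,
    List.toFinset_card_of_nodup (Ml_nodup.filter _)]

theorem result :
    ∃ (b : ℕ) (G : Type) (_ : AddCommGroup G) (_ : Fintype G) (_ : DecidableEq G) (M : Finset G),
      1 ≤ b ∧ Fintype.card G = 2 ^ (2 * b) ∧ IsHadamardDS b M ∧
      ∀ (P L : Type) [Membership P L] [Fintype P] [Fintype L]
        [Configuration.ProjectivePlane P L],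
        Configuration.ProjectivePlane.order P L = 2 ^ b → ¬ EmbedsAsArcs M P L (2 ^ (b - 1)) := by
  refine ⟨2, G0, inferInstance, inferInstance, inferInstance, Ml.toFinset, by norm_num,
    by decide +kernel, ⟨by decide +kernel, by decide +kernel⟩, ?_⟩
  intro P L _ _ _ _ _ ⟨φ, hφ, harc⟩
  classical
  have hline : ∀ l : L, φ (0, 0) ∈ l →
      (φ (3, 0) ∈ l → φ (0, 1) ∈ l ∧ φ (3, 1) ∉ l) ∧ (φ (3, 1) ∈ l → φ (0, 1) ∈ l) := by
    intro l hl
    have := line_lemma (fun x => decide (φ x ∈ l)) (fun g => by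
      have h := harc g l
      rw [count_eq φ hφ l g] at h
      simpa using h) (by simpa using hl)
    simpa using this
  have n1 : φ (0, 0) ≠ φ (3, 0) := fun h => absurd (hφ h) (by decide)
  have n2 : φ (0, 0) ≠ φ (3, 1) := fun h => absurd (hφ h) (by decide)
  have n3 : φ (0, 0) ≠ φ (0, 1) := fun h => absurd (hφ h) (by decide)
  obtain ⟨a1, a2⟩ := Configuration.HasLines.mkLine_ax (L := L) n1
  obtain ⟨b1, b2⟩ := Configuration.HasLines.mkLine_ax (L := L) n2
  obtain ⟨c1, c2⟩ := (hline _ a1).1 a2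
  have d1 := (hline _ b1).2 b2
  rcases Configuration.Nondegenerate.eq_or_eq a1 c1 b1 d1 with h | h
  · exact n3 h
  · exact c2 (h ▸ b2)

end Pool.Agent.Results.MP_82bed6_co.Counter
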